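import Pool.Agent.Lib.SmN.K.KThm

/-!
SMITH-U (SmN), counting half, block K: the squarefree divisors of degree `n` whose large primes have
distinct degrees are the points of the grids.

`pt Ds x` : the divisor given by the small primes `Ds` and the point `x`; `sum_pt`, `degS_pt`;
`gridEquivN` : the bijection; `grid_count` : from a bound on every nice grid to a bound for all nice
divisors; `grid_marks` : the same with marks; `kgrid` : the conclusion for all divisors.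
-/

set_option autoImplicit false

open Finset

namespace Pool.Agent.SmN

namespace PSys

variable {X : PSys}

open Classical in
/-- The divisor given by the small primes `Ds` and the point `x`. -/
noncomputable def pt (Ds : Finset X.Pr) {T : Finset ℕ} (x : (t : T) → X.Of t) : Finset X.Pr :=
  Ds ∪ univ.image fun t : T => (x t).1

theorem mem_pt {Ds : Finset X.Pr} {T : Finset ℕ} {x : (t : T) → X.Of t} {P : X.Pr} :
    P ∈ pt Ds x ↔ P ∈ Ds ∨ ∃ t : T, (x t).1 = P := by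
  classical
  rw [pt, mem_union, mem_image]
  simp

/-- The condition on `(Ds, T)`. -/
structure GPre (N : ℕ) (Ds : Finset X.Pr) (T : Finset ℕ) : Prop where
  sml : ∀ P ∈ Ds, X.deg P < N
  large : ∀ t ∈ T, N ≤ t

theorem sum_pt {A : Type*} [AddCommMonoid A] {N : ℕ} {Ds : Finset X.Pr} {T : Finset ℕ}
    (h : GPre N Ds T) (x : (t : T) → X.Of t) (f : X.Pr → A) :
    ∑ P ∈ pt Ds x, f P = ∑ P ∈ Ds, f P + ∑ t : T, f (x t).1 := by
  classical
  have hd : Disjoint Ds (univ.image fun t : T => (x t).1) := by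
    rw [disjoint_left]
    intro P hP hP'
    rw [mem_image] at hP'
    obtain ⟨t, -, rfl⟩ := hP'
    have h1 := h.sml _ hP
    have h2 := h.large t.1 t.2
    have h3 := (x t).2
    omega
  have hi : Function.Injective fun t : T => (x t).1 := by
    intro t t' htt
    have h1 := (x t).2
    have h2 := (x t').2
    have h3 : (x t).1 = (x t').1 := htt
    rw [h3] at h1
    exact Subtype.ext (h1.symm.trans h2)
  rw [pt, sum_union hd, sum_image (hi.injOn)]

theorem degS_pt {N : ℕ} {Ds : Finset X.Pr} {T : Finset ℕ} (h : GPre N Ds T)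
    (x : (t : T) → X.Of t) : X.degS (pt Ds x) = X.degS Ds + ∑ t ∈ T, t := by
  rw [degS, sum_pt h, ← sum_coe_sort T]
  refine congrArg _ (sum_congr rfl fun t _ => ?_)
  exact (x t).2

/-- A large prime of the divisor is the entry of the point. -/
theorem eq_of_mem_pt {N : ℕ} {Ds : Finset X.Pr} {T : Finset ℕ} (h : GPre N Ds T)
    {x : (t : T) → X.Of t} {P : X.Pr} (hP : P ∈ pt Ds x) (hN : N ≤ X.deg P) :
    ∃ ht : X.deg P ∈ T, (x ⟨X.deg P, ht⟩).1 = P := by
  rcases mem_pt.1 hP with hP | ⟨t, rfl⟩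
  · exact absurd (h.sml P hP) (not_lt.2 hN)
  · have h1 := (x t).2
    have ht : X.deg (x t).1 ∈ T := by
      rw [h1]
      exact t.2
    refine ⟨ht, ?_⟩
    have h2 : (⟨X.deg (x t).1, ht⟩ : T) = t := Subtype.ext h1
    rw [h2]

theorem mem_pt_small {N : ℕ} {Ds : Finset X.Pr} {T : Finset ℕ} (h : GPre N Ds T)
    {x : (t : T) → X.Of t} {P : X.Pr} : P ∈ Ds ↔ P ∈ pt Ds x ∧ X.deg P < N := by
  constructor
  · intro hP
    exact ⟨mem_pt.2 (Or.inl hP), h.sml P hP⟩
  · rintro ⟨hP, hN⟩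
    rcases mem_pt.1 hP with hP | ⟨t, rfl⟩
    · exact hP
    · have h1 := h.large t.1 t.2
      have h2 := (x t).2
      omega

theorem mem_T {N : ℕ} {Ds : Finset X.Pr} {T : Finset ℕ} (h : GPre N Ds T)
    {x : (t : T) → X.Of t} {t : ℕ} : t ∈ T ↔ N ≤ t ∧ ∃ P ∈ pt Ds x, X.deg P = t := by
  constructor
  · intro ht
    exact ⟨h.large t ht, (x ⟨t, ht⟩).1, mem_pt.2 (Or.inr ⟨_, rfl⟩), (x ⟨t, ht⟩).2⟩
  · rintro ⟨hN, P, hP, rfl⟩
    exact (eq_of_mem_pt h hP hN).1

theorem pt_inj {N : ℕ} {Ds Ds' : Finset X.Pr} {T T' : Finset ℕ} (h : GPre N Ds T)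
    (h' : GPre N Ds' T') {x : (t : T) → X.Of t} {x' : (t : T') → X.Of t}
    (heq : pt Ds x = pt Ds' x') : Ds = Ds' ∧ T = T' := by
  constructor
  · ext P
    rw [mem_pt_small h (x := x), mem_pt_small h' (x := x'), heq]
  · ext t
    rw [mem_T h (x := x), mem_T h' (x := x'), heq]

theorem pt_inj_point {N : ℕ} {Ds : Finset X.Pr} {T : Finset ℕ} (h : GPre N Ds T)
    {x x' : (t : T) → X.Of t} (heq : pt Ds x = pt Ds x') : x = x' := by
  funext t
  have h1 : (x t).1 ∈ pt Ds x' := heq ▸ mem_pt.2 (Or.inr ⟨t, rfl⟩)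
  have h2 := (x t).2
  have h3 := h.large t.1 t.2
  obtain ⟨ht, h4⟩ := eq_of_mem_pt h h1 (by omega)
  have h5 : (⟨X.deg (x t).1, ht⟩ : T) = t := Subtype.ext h2
  rw [h5] at h4
  exact Subtype.ext h4.symm

/-- The set of the grids. -/
abbrev Grids (X : PSys) (n N : ℕ) : Type :=
  {g : Finset X.Pr × Finset ℕ // (∀ P ∈ g.1, X.deg P < N) ∧ (∀ t ∈ g.2, N ≤ t) ∧
    X.degS g.1 + ∑ t ∈ g.2, t = n}

/-- The divisors whose large primes have distinct degrees. -/
abbrev DistD (X : PSys) (n N : ℕ) : Type :=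
  {D : Finset X.Pr // X.degS D = n ∧ ∀ P ∈ D, ∀ Q ∈ D, N ≤ X.deg P → X.deg P = X.deg Q → P = Q}

/-- From the points of the grids to divisors. -/
noncomputable def ofGrid (X : PSys) (n N : ℕ) :
    (Σ g : Grids X n N, ((t : g.1.2) → X.Of t)) → DistD X n N := fun y =>
  ⟨pt y.1.1.1 y.2, (degS_pt ⟨y.1.2.1, y.1.2.2.1⟩ y.2).trans y.1.2.2.2, by
    intro P hP Q hQ hN hPQ
    obtain ⟨h1, h2⟩ := eq_of_mem_pt ⟨y.1.2.1, y.1.2.2.1⟩ hP hN
    obtain ⟨h3, h4⟩ := eq_of_mem_pt ⟨y.1.2.1, y.1.2.2.1⟩ hQ (hPQ ▸ hN)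
    rw [← h2, ← h4]
    have h5 : (⟨X.deg P, h1⟩ : y.1.1.2) = ⟨X.deg Q, h3⟩ := Subtype.ext hPQ
    rw [h5]⟩

theorem ofGrid_inj (n N : ℕ) : Function.Injective (ofGrid X n N) := by
  rintro ⟨⟨⟨Ds, T⟩, hg⟩, x⟩ ⟨⟨⟨Ds', T'⟩, hg'⟩, x'⟩ heq
  have h1 : pt Ds x = pt Ds' x' := congrArg Subtype.val heq
  obtain ⟨rfl, rfl⟩ := pt_inj ⟨hg.1, hg.2.1⟩ ⟨hg'.1, hg'.2.1⟩ h1
  have h2 := pt_inj_point ⟨hg.1, hg.2.1⟩ h1
  subst h2
  rfl

/-- Every divisor whose large primes have distinct degrees is a point of a grid. -/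
theorem exists_pt (N : ℕ) (D : Finset X.Pr)
    (hD : ∀ P ∈ D, ∀ Q ∈ D, N ≤ X.deg P → X.deg P = X.deg Q → P = Q) :
    ∃ (Ds : Finset X.Pr) (T : Finset ℕ) (x : (t : T) → X.Of t), GPre N Ds T ∧ pt Ds x = D ∧
      (∀ P, P ∈ Ds ↔ P ∈ D ∧ X.deg P < N) ∧ (∀ t, t ∈ T ↔ ∃ P ∈ D, N ≤ X.deg P ∧ X.deg P = t) := by
  classical
  set Ds := D.filter fun P => X.deg P < N with hDs
  set T := (D.filter fun P => N ≤ X.deg P).image X.deg with hT
  have hT' : ∀ t, t ∈ T ↔ ∃ P ∈ D, N ≤ X.deg P ∧ X.deg P = t := by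
    intro t
    rw [hT, mem_image]
    constructor
    · rintro ⟨P, hP, rfl⟩
      rw [mem_filter] at hP
      exact ⟨P, hP.1, hP.2, rfl⟩
    · rintro ⟨P, hP, h1, rfl⟩
      exact ⟨P, mem_filter.2 ⟨hP, h1⟩, rfl⟩
  have hch : ∀ t : T, ∃ P ∈ D, N ≤ X.deg P ∧ X.deg P = t.1 := fun t => (hT' t.1).1 t.2
  choose y hy1 hy2 hy3 using hch
  have hpre : GPre N Ds T := by
    refine ⟨fun P hP => (mem_filter.1 hP).2, fun t ht => ?_⟩
    obtain ⟨P, -, h1, rfl⟩ := (hT' t).1 ht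
    exact h1
  refine ⟨Ds, T, fun t => ⟨y t, hy3 t⟩, hpre, ?_, fun P => by rw [hDs, mem_filter], hT'⟩
  ext P
  rw [mem_pt]
  constructor
  · rintro (hP | ⟨t, rfl⟩)
    · exact (mem_filter.1 hP).1
    · exact hy1 t
  · intro hP
    rcases lt_or_ge (X.deg P) N with h1 | h1
    · exact Or.inl (mem_filter.2 ⟨hP, h1⟩)
    · right
      have ht : X.deg P ∈ T := (hT' _).2 ⟨P, hP, h1, rfl⟩
      refine ⟨⟨X.deg P, ht⟩, ?_⟩
      exact hD _ (hy1 _) _ hP (hy2 _) (hy3 _)

theorem ofGrid_surj (n N : ℕ) : Function.Surjective (ofGrid X n N) := by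
  rintro ⟨D, hD, hD'⟩
  obtain ⟨Ds, T, x, hpre, hpt, -, -⟩ := exists_pt N D hD'
  refine ⟨⟨⟨(Ds, T), hpre.sml, hpre.large, ?_⟩, x⟩, Subtype.ext hpt⟩
  rw [← degS_pt hpre x, hpt, hD]

/-- **The grid bijection.** -/
noncomputable def gridEquivN (n N : ℕ) :
    {D : Finset X.Pr // X.degS D = n ∧
      ∀ P ∈ D, ∀ Q ∈ D, N ≤ X.deg P → X.deg P = X.deg Q → P = Q} ≃
    Σ g : {g : Finset X.Pr × Finset ℕ // (∀ P ∈ g.1, X.deg P < N) ∧ (∀ t ∈ g.2, N ≤ t) ∧
      X.degS g.1 + ∑ t ∈ g.2, t = n}, ((t : g.1.2) → X.Of t) :=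
  (Equiv.ofBijective (ofGrid X n N) ⟨ofGrid_inj n N, ofGrid_surj n N⟩).symm

theorem gridEquivN_symm (n N : ℕ) (y : Σ g : Grids X n N, ((t : g.1.2) → X.Of t)) :
    ((gridEquivN n N).symm y).1 = pt y.1.1.1 y.2 := rfl

/-! ### Counting -/

/-- The grid of a nice divisor is nice. -/
theorem grN_of_nice {m0 : ℕ} {c0 δ : ℝ} {n : ℕ} {Ds : Finset X.Pr} {T : Finset ℕ}
    {x : (t : T) → X.Of t} (hpre : GPre (N0 n) Ds T) (hn : X.degS (pt Ds x) = n)
    (h : NiceN X m0 c0 δ n (pt Ds x)) : GrN X m0 c0 δ n Ds T where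
  deg := by rw [← degS_pt hpre x, hn]
  few := by
    have h1 : (pt Ds x).card = Ds.card + T.card := by
      rw [card_eq_sum_ones, sum_pt hpre]
      simp
    rw [← h1]
    exact h.few
  large := hpre.large
  sml := hpre.sml
  many := by
    classical
    refine h.many.trans ?_
    have h1 : Nat.card {P : X.Pr // P ∈ pt Ds x ∧ N0 n ≤ X.deg P ∧ m0 ∣ X.deg P} ≤
        Nat.card (T.filter fun t => m0 ∣ t) := by
      refine Nat.card_le_card_of_injective (fun P => ⟨X.deg P.1, ?_⟩) ?_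
      · rw [mem_filter]
        exact ⟨(mem_T hpre).2 ⟨P.2.2.1, P.1, P.2.1, rfl⟩, P.2.2.2⟩
      · rintro ⟨P, hP⟩ ⟨Q, hQ⟩ hPQ
        have h2 : X.deg P = X.deg Q := congrArg Subtype.val hPQ
        exact Subtype.ext (h.dist P hP.1 Q hQ.1 hP.2.1 h2)
    have h3 : Nat.card (T.filter fun t => m0 ∣ t) = (T.filter fun t => m0 ∣ t).card := by
      rw [Nat.card_eq_fintype_card, Fintype.card_coe]
    rw [h3] at h1
    exact_mod_cast h1
  small := by
    have h1 : Nat.card {P : X.Pr // P ∈ pt Ds x ∧ X.deg P < N0 n} = Ds.card :=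
      Nat.subtype_card _ fun P => mem_pt_small hpre
    rw [← h1]
    exact h.small

variable {q : ℕ}

theorem Ok.finite_pts (hX : X.Ok q) (T : Finset ℕ) : Finite ((t : T) → X.Of t) := by
  have : ∀ t : T, Finite (X.Of t) := fun t => hX.fin t
  exact Pi.finite

/-- From a bound on every nice grid to a bound for the nice divisors. -/
theorem grid_count (hX : X.Ok q) {m0 : ℕ} {c0 δ : ℝ} {n : ℕ} (Bad : Finset X.Pr → Prop) {ε : ℝ}
    (hε : 0 ≤ ε) (H : ∀ (Ds : Finset X.Pr) (T : Finset ℕ), GrN X m0 c0 δ n Ds T →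
      (Nat.card {x : (t : T) → X.Of t // Bad (pt Ds x)} : ℝ) ≤
        ε * Nat.card ((t : T) → X.Of t)) :
    (Nat.card {D : Finset X.Pr // X.degS D = n ∧ NiceN X m0 c0 δ n D ∧ Bad D} : ℝ) ≤
      ε * X.nDD n := by
  classical
  -- the finite set of the nice grids
  set Gs : Finset (Finset X.Pr × Finset ℕ) :=
    ((Ple hX n).powerset ×ˢ (range (n + 1)).powerset).filter fun g => GrN X m0 c0 δ n g.1 g.2
    with hGs
  have hmem : ∀ g : Finset X.Pr × Finset ℕ, GrN X m0 c0 δ n g.1 g.2 → g ∈ Gs := by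
    intro g hg
    rw [hGs, mem_filter, mem_product, mem_powerset, mem_powerset]
    refine ⟨⟨subset_Ple hX (by have := hg.deg; omega), fun t ht => ?_⟩, hg⟩
    rw [mem_range]
    have h1 : t ≤ ∑ s ∈ g.2, s := single_le_sum (f := fun s => s) (fun _ _ => Nat.zero_le _) ht
    have := hg.deg
    omega
  have hfin : ∀ g : Finset X.Pr × Finset ℕ, Finite ((t : g.2) → X.Of t) := fun g =>
    hX.finite_pts g.2
  let hft : ∀ g : Finset X.Pr × Finset ℕ, Fintype ((t : g.2) → X.Of t) := fun g =>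
    Fintype.ofFinite _
  -- the points of one grid, as divisors
  set im : Finset X.Pr × Finset ℕ → Finset (Finset X.Pr) := fun g =>
    univ.image fun x : (t : g.2) → X.Of t => pt g.1 x with him
  set imB : Finset X.Pr × Finset ℕ → Finset (Finset X.Pr) := fun g =>
    (im g).filter Bad with himB
  have hpre : ∀ g ∈ Gs, GPre (N0 n) g.1 g.2 := fun g hg =>
    ⟨(mem_filter.1 hg).2.sml, (mem_filter.1 hg).2.large⟩
  have him_card : ∀ g ∈ Gs, (im g).card = Nat.card ((t : g.2) → X.Of t) := by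
    intro g hg
    rw [him, card_image_of_injective _ fun x x' h => pt_inj_point (hpre g hg) h, card_univ,
      Nat.card_eq_fintype_card]
  have himB_card : ∀ g ∈ Gs, (imB g).card =
      Nat.card {x : (t : g.2) → X.Of t // Bad (pt g.1 x)} := by
    intro g hg
    have h1 : imB g = (univ.filter fun x : (t : g.2) → X.Of t => Bad (pt g.1 x)).image
        fun x => pt g.1 x := by
      ext D
      rw [himB, him, mem_filter, mem_image, mem_image]
      constructor
      · rintro ⟨⟨x, -, rfl⟩, hB⟩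
        exact ⟨x, mem_filter.2 ⟨mem_univ _, hB⟩, rfl⟩
      · rintro ⟨x, hx, rfl⟩
        exact ⟨⟨x, mem_univ _, rfl⟩, (mem_filter.1 hx).2⟩
    rw [h1, card_image_of_injective _ fun x x' h => pt_inj_point (hpre g hg) h]
    exact (Nat.subtype_card _ fun x => by simp).symm
  -- disjointness
  have hdis : ∀ g ∈ Gs, ∀ g' ∈ Gs, g ≠ g' → Disjoint (im g) (im g') := by
    intro g hg g' hg' hne
    rw [disjoint_left]
    intro D hD hD'
    rw [him, mem_image] at hD hD'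
    obtain ⟨x, -, rfl⟩ := hD
    obtain ⟨x', -, hx'⟩ := hD'
    obtain ⟨e1, e2⟩ := pt_inj (hpre g hg) (hpre g' hg') hx'.symm
    exact hne (Prod.ext e1 e2)
  -- the nice bad divisors
  have hA : Nat.card {D : Finset X.Pr // X.degS D = n ∧ NiceN X m0 c0 δ n D ∧ Bad D} ≤
      ∑ g ∈ Gs, (imB g).card := by
    have h1 : Nat.card {D : Finset X.Pr // X.degS D = n ∧ (NiceN X m0 c0 δ n D ∧ Bad D)} =
        ((Dn hX n).filter fun D => NiceN X m0 c0 δ n D ∧ Bad D).card :=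
      Nat.subtype_card _ fun D => by rw [mem_filter, mem_Dn]
    rw [h1]
    refine (card_le_card ?_).trans card_biUnion_le
    intro D hD
    rw [mem_filter, mem_Dn] at hD
    obtain ⟨hd, hnice, hbad⟩ := hD
    obtain ⟨Ds, T, x, hp, hpt, -, -⟩ := exists_pt (N0 n) D hnice.dist
    subst hpt
    rw [mem_biUnion]
    refine ⟨(Ds, T), hmem _ (grN_of_nice hp hd hnice), ?_⟩
    rw [himB, mem_filter]
    refine ⟨?_, hbad⟩
    rw [him, mem_image]
    exact ⟨x, mem_univ _, rfl⟩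
  have hB : ∑ g ∈ Gs, (im g).card ≤ X.nDD n := by
    rw [nDD_eq hX, ← card_biUnion hdis]
    refine card_le_card fun D hD => ?_
    rw [mem_biUnion] at hD
    obtain ⟨g, hg, hD⟩ := hD
    rw [him, mem_image] at hD
    obtain ⟨x, -, rfl⟩ := hD
    rw [mem_Dn, degS_pt (hpre g hg), (mem_filter.1 hg).2.deg]
  calc (Nat.card {D : Finset X.Pr // X.degS D = n ∧ NiceN X m0 c0 δ n D ∧ Bad D} : ℝ)
      ≤ ∑ g ∈ Gs, ((imB g).card : ℝ) := by exact_mod_cast hA
    _ ≤ ∑ g ∈ Gs, ε * ((im g).card : ℝ) := by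
        refine sum_le_sum fun g hg => ?_
        rw [himB_card g hg, him_card g hg]
        exact H g.1 g.2 (mem_filter.1 hg).2
    _ = ε * ((∑ g ∈ Gs, (im g).card : ℕ) : ℝ) := by
        rw [← mul_sum]
        push_cast
        rfl
    _ ≤ ε * X.nDD n := mul_le_mul_of_nonneg_left (by exact_mod_cast hB) hε

/-- With marks: the proportion of the marked points is the proportion of the points. -/
theorem marks_card (hX : X.Ok q) {Rr : Type} [Finite Rr] [Nonempty Rr] (T : Finset ℕ)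
    (p : ((t : T) → X.Of t) → Prop) {ε : ℝ}
    (h : (Nat.card {x : (t : T) → X.Of t × Rr // p fun t => (x t).1} : ℝ) ≤
      ε * Nat.card ((t : T) → X.Of t × Rr)) :
    (Nat.card {x : (t : T) → X.Of t // p x} : ℝ) ≤ ε * Nat.card ((t : T) → X.Of t) := by
  have hf := hX.finite_pts T
  have e1 : Nat.card {x : (t : T) → X.Of t × Rr // p fun t => (x t).1} =
      Nat.card {x : (t : T) → X.Of t // p x} * Nat.card (T → Rr) := by
    rw [← Nat.card_prod]
    refine Nat.card_congr ⟨fun x => (⟨fun t => (x.1 t).1, x.2⟩, fun t => (x.1 t).2),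
      fun y => ⟨fun t => (y.1.1 t, y.2 t), y.1.2⟩, fun _ => rfl, fun _ => rfl⟩
  have e2 : Nat.card ((t : T) → X.Of t × Rr) =
      Nat.card ((t : T) → X.Of t) * Nat.card (T → Rr) := by
    rw [← Nat.card_prod]
    exact Nat.card_congr ⟨fun x => (fun t => (x t).1, fun t => (x t).2),
      fun y t => (y.1 t, y.2 t), fun _ => rfl, fun _ => rfl⟩
  rw [e1, e2] at h
  push_cast at h
  have h0 : (0 : ℝ) < Nat.card (T → Rr) := by exact_mod_cast Nat.card_pos
  rw [← mul_assoc] at h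
  exact le_of_mul_le_mul_right h h0

/-- **Conclusion of block K**: a property which is rare on every nice grid of marked points is rare
among all the squarefree divisors. -/
theorem kgrid (hX : X.Ok q) (m0 : ℕ) (hm : 1 ≤ m0) (c0 : ℝ) (hc : c0 ≤ 1 / (4 * m0))
    {Rr : Type} [Finite Rr] [Nonempty Rr] (Bad : ℕ → Finset X.Pr → Prop)
    (H : ∀ ε : ℝ, 0 < ε → ∃ δ : ℝ, 0 < δ ∧ ∃ n₀, ∀ n ≥ n₀, ∀ (Ds : Finset X.Pr) (T : Finset ℕ),
      GrN X m0 c0 δ n Ds T →
        (Nat.card {x : (t : T) → X.Of t × Rr // Bad n (pt Ds fun t => (x t).1)} : ℝ) ≤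
          ε * Nat.card ((t : T) → X.Of t × Rr)) :
    ∀ ε : ℝ, 0 < ε → ∃ n₀, ∀ n ≥ n₀,
      (Nat.card {D : Finset X.Pr // X.degS D = n ∧ Bad n D} : ℝ) ≤ ε * X.nDD n := by
  classical
  intro ε hε
  obtain ⟨δ, hδ, n₁, h1⟩ := H (ε / 2) (by positivity)
  obtain ⟨n₂, h2⟩ := kthm hX m0 hm c0 hc (ε / 2) δ (by positivity) hδ
  refine ⟨max n₁ n₂, fun n hn => ?_⟩
  have h3 := h2 n (le_trans (le_max_right _ _) hn)
  have h4 := grid_count hX (m0 := m0) (c0 := c0) (δ := δ) (n := n) (Bad n)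
    (by positivity : (0 : ℝ) ≤ ε / 2) (fun Ds T hG =>
      marks_card hX T (fun x => Bad n (pt Ds x)) (h1 n (le_trans (le_max_left _ _) hn) Ds T hG))
  have e1 : Nat.card {D : Finset X.Pr // X.degS D = n ∧ Bad n D} ≤
      Nat.card {D : Finset X.Pr // X.degS D = n ∧ ¬ NiceN X m0 c0 δ n D} +
      Nat.card {D : Finset X.Pr // X.degS D = n ∧ (NiceN X m0 c0 δ n D ∧ Bad n D)} := by
    have k1 : ∀ (E : Finset X.Pr → Prop) [DecidablePred E],
        Nat.card {D : Finset X.Pr // X.degS D = n ∧ E D} =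
        ((Dn hX n).filter E).card := fun E _ => Nat.subtype_card _ fun D => by
      rw [mem_filter, mem_Dn]
    rw [k1, k1, k1]
    refine (card_le_card ?_).trans (card_union_le _ _)
    intro D hD
    rw [mem_filter] at hD
    rw [mem_union, mem_filter, mem_filter]
    by_cases h : NiceN X m0 c0 δ n D
    · exact Or.inr ⟨hD.1, h, hD.2⟩
    · exact Or.inl ⟨hD.1, h⟩
  have e2 : (Nat.card {D : Finset X.Pr // X.degS D = n ∧ Bad n D} : ℝ) ≤
      Nat.card {D : Finset X.Pr // X.degS D = n ∧ ¬ NiceN X m0 c0 δ n D} +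
      Nat.card {D : Finset X.Pr // X.degS D = n ∧ (NiceN X m0 c0 δ n D ∧ Bad n D)} := by
    exact_mod_cast e1
  linarith

end PSys

/-! ### The vector of a point -/

section vec

variable {G V V1 Pl : Type} [Group G] [AddCommGroup V] [DistribMulAction G V]
  [AddCommGroup V1] [Module (ZMod 2) V1]

namespace CData

variable {S : Sys G V V1 Pl} {X : PSys} (cd : CData S X)

/-- The character of the twist by the divisor of a point. -/
theorem chiD_pt {N : ℕ} {Ds : Finset X.Pr} {T : Finset ℕ} (h : PSys.GPre N Ds T)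
    (r0 : {g : G // g ∈ cd.R}) (x : cd.MPts T) :
    cd.chiD (PSys.pt Ds fun t => (x t).1) = cd.chiN (cd.vec r0 Ds x) := by
  funext s
  rw [chiD, chiN, PSys.sum_pt h, Fintype.sum_sum_type, ← sum_coe_sort Ds]
  rfl

theorem pVecN_vec {N : ℕ} {Ds : Finset X.Pr} {T : Finset ℕ} (h : PSys.GPre N Ds T)
    (r0 : {g : G // g ∈ cd.R}) (x : cd.MPts T) : cd.PVecN (cd.vec r0 Ds x) := by
  have hs : ∀ (P : Ds) (t : T), P.1 ≠ (x t).1.1 := by
    intro P t he
    have h1 := h.sml P.1 P.2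
    have h2 := h.large t.1 t.2
    have h3 := (x t).1.2
    rw [he] at h1
    omega
  rintro (P | t) (P' | t') he
  · exact congrArg Sum.inl (Subtype.ext he)
  · exact absurd he (hs P t')
  · exact absurd he.symm (hs P' t)
  · have h1 := (x t).1.2
    have h2 := (x t').1.2
    have h3 : (x t).1.1 = (x t').1.1 := he
    rw [h3] at h1
    exact congrArg Sum.inr (Subtype.ext (h1.symm.trans h2))

theorem degN_vec {Ds : Finset X.Pr} {T : Finset ℕ}
    (r0 : {g : G // g ∈ cd.R}) (x : cd.MPts T) :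
    cd.degN (cd.vec r0 Ds x) = X.degS Ds + ∑ t ∈ T, t := by
  rw [degN, Fintype.sum_sum_type, PSys.degS, ← sum_coe_sort Ds, ← sum_coe_sort T]
  refine congrArg _ (sum_congr rfl fun t _ => ?_)
  exact (x t).1.2

end CData

end vec

end Pool.Agent.SmN
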