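import Pool.Agent.Lib.SmN.K.Rankin

/-!
SMITH-U (SmN), counting half, block K: the anatomy of the squarefree divisors of degree `n` over a
prime system. `kthm`: almost all of them are nice.
-/

set_option autoImplicit false

open Finset

namespace Pool.Agent.SmN.PSys

variable {X : PSys} {q : ℕ}

open Classical in
/-- Rankin's trick. -/
theorem rankin (hX : X.Ok q) {C : ℝ} (hC0 : 0 ≤ C)
    (hC : ∀ d : ℕ, 1 ≤ d → |(d : ℝ) * npr X d - (q : ℝ) ^ d| ≤ C * √((q : ℝ) ^ d))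
    (p : ℕ → Prop) {z0 : ℝ} (h0 : 0 < z0) (h2 : z0 ≤ 2) (n : ℕ) (hn : 1 ≤ n) (t : ℝ)
    (E : Finset X.Pr → Prop)
    (hE : ∀ D ∈ Dn hX n, E D → z0 ^ t ≤ z0 ^ (D.filter fun P => p (X.deg P)).card) :
    (((Dn hX n).filter E).card : ℝ) ≤ 2 * (1 + C) * (q : ℝ) ^ n / n *
      Real.exp (∑ P ∈ Ple hX n, 1 / (q : ℝ) ^ X.deg P +
        (z0 - 1) * ∑ P ∈ Ple hX n with p (X.deg P), 1 / (q : ℝ) ^ X.deg P - t * Real.log z0) := by
  set z : X.Pr → ℝ := fun P => if p (X.deg P) then z0 else 1 with hz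
  have hz0 : ∀ P, 0 ≤ z P := by
    intro P
    simp only [hz]
    split_ifs
    · exact h0.le
    · exact zero_le_one
  have hz2 : ∀ P, z P ≤ 2 := by
    intro P
    simp only [hz]
    split_ifs
    · exact h2
    · exact one_le_two
  have h1 : (((Dn hX n).filter E).card : ℝ) * z0 ^ t ≤ Sz hX z n := by
    rw [← nsmul_eq_mul, ← sum_const, Sz]
    calc ∑ _D ∈ (Dn hX n).filter E, z0 ^ t
        ≤ ∑ D ∈ (Dn hX n).filter E, ∏ P ∈ D, z P := by
          refine sum_le_sum fun D hD => ?_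
          have hD' := mem_filter.1 hD
          refine (hE D hD'.1 hD'.2).trans ?_
          simp only [hz]
          rw [prod_ite, prod_const, prod_const, one_pow, mul_one]
      _ ≤ ∑ D ∈ Dn hX n, ∏ P ∈ D, z P :=
          sum_le_sum_of_subset_of_nonneg (filter_subset _ _) fun D _ _ =>
            prod_nonneg fun P _ => hz0 P
  have h3 := h1.trans (Sz_le hX hC0 hC hz0 hz2 n hn)
  have h4 : ∑ P ∈ Ple hX n, z P / (q : ℝ) ^ X.deg P = ∑ P ∈ Ple hX n, 1 / (q : ℝ) ^ X.deg P +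
      (z0 - 1) * ∑ P ∈ Ple hX n with p (X.deg P), 1 / (q : ℝ) ^ X.deg P := by
    rw [sum_filter, mul_sum, ← sum_add_distrib]
    refine sum_congr rfl fun P _ => ?_
    simp only [hz]
    split_ifs
    · ring
    · ring
  rw [h4] at h3
  have h5 : z0 ^ t = Real.exp (t * Real.log z0) := by
    rw [Real.rpow_def_of_pos h0, mul_comm]
  rw [h5] at h3
  rw [Real.exp_sub, ← mul_div_assoc, le_div_iff₀ (Real.exp_pos _)]
  exact h3

theorem harm_le (n : ℕ) : ∑ d ∈ Icc 1 n, 1 / (d : ℝ) ≤ 1 + Real.log n := by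
  have h1 := harmonic_le_one_add_log n
  rw [harmonic_eq_sum_Icc] at h1
  push_cast at h1
  simpa [one_div] using h1

theorem le_harm (n : ℕ) : Real.log (n + 1) ≤ ∑ d ∈ Icc 1 n, 1 / (d : ℝ) := by
  have h1 := log_add_one_le_harmonic n
  rw [harmonic_eq_sum_Icc] at h1
  push_cast at h1
  simpa [one_div] using h1

open Classical in
theorem mertens_all (hX : X.Ok q) {C : ℝ} (hC0 : 0 ≤ C)
    (hC : ∀ d : ℕ, 1 ≤ d → |(d : ℝ) * npr X d - (q : ℝ) ^ d| ≤ C * √((q : ℝ) ^ d))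
    (n : ℕ) : ∑ P ∈ Ple hX n, 1 / (q : ℝ) ^ X.deg P ≤ 1 + Real.log n + 4 * C := by
  have h1 := (abs_le.1 (mertens hX hC0 hC n fun _ => True)).2
  simp only [filter_true] at h1
  have h2 := harm_le n
  linarith

open Classical in
/-- Rankin's trick with the sum over all the primes evaluated. -/
theorem rankin' (hX : X.Ok q) {C : ℝ} (hC0 : 0 ≤ C)
    (hC : ∀ d : ℕ, 1 ≤ d → |(d : ℝ) * npr X d - (q : ℝ) ^ d| ≤ C * √((q : ℝ) ^ d))
    (p : ℕ → Prop) {z0 : ℝ} (h0 : 0 < z0) (h2 : z0 ≤ 2) (n : ℕ) (hn : 1 ≤ n) (t : ℝ)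
    (E : Finset X.Pr → Prop)
    (hE : ∀ D ∈ Dn hX n, E D → z0 ^ t ≤ z0 ^ (D.filter fun P => p (X.deg P)).card) :
    (((Dn hX n).filter E).card : ℝ) ≤ 2 * (1 + C) * Real.exp (1 + 4 * C) * (q : ℝ) ^ n *
      Real.exp ((z0 - 1) * (∑ P ∈ Ple hX n with p (X.deg P), 1 / (q : ℝ) ^ X.deg P) -
        t * Real.log z0) := by
  have hn0 : (0 : ℝ) < n := by exact_mod_cast hn
  have hq0 := pow_pos hX.qpos n
  refine (rankin hX hC0 hC p h0 h2 n hn t E hE).trans ?_
  set A := ∑ P ∈ Ple hX n with p (X.deg P), 1 / (q : ℝ) ^ X.deg P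
  have h3 := mertens_all hX hC0 hC n
  have h4 : Real.exp (∑ P ∈ Ple hX n, 1 / (q : ℝ) ^ X.deg P + (z0 - 1) * A - t * Real.log z0) ≤
      Real.exp (1 + 4 * C) * n * Real.exp ((z0 - 1) * A - t * Real.log z0) := by
    have h5 : (n : ℝ) = Real.exp (Real.log n) := (Real.exp_log hn0).symm
    have h6 : Real.exp (1 + 4 * C) * n * Real.exp ((z0 - 1) * A - t * Real.log z0) =
        Real.exp (1 + 4 * C + Real.log n + ((z0 - 1) * A - t * Real.log z0)) := by
      rw [Real.exp_add (1 + 4 * C + Real.log n), Real.exp_add (1 + 4 * C), ← h5]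
    rw [h6, Real.exp_le_exp]
    linarith
  calc 2 * (1 + C) * (q : ℝ) ^ n / n *
        Real.exp (∑ P ∈ Ple hX n, 1 / (q : ℝ) ^ X.deg P + (z0 - 1) * A - t * Real.log z0)
      ≤ 2 * (1 + C) * (q : ℝ) ^ n / n *
        (Real.exp (1 + 4 * C) * n * Real.exp ((z0 - 1) * A - t * Real.log z0)) := by
        refine mul_le_mul_of_nonneg_left h4 ?_
        positivity
    _ = _ := by
        field_simp

/-- `π(d)² nDD(n - 2 d)` summed over `d ≥ N`. -/
theorem nDD_le (hX : X.Ok q) {C : ℝ} (hC0 : 0 ≤ C)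
    (hC : ∀ d : ℕ, 1 ≤ d → |(d : ℝ) * npr X d - (q : ℝ) ^ d| ≤ C * √((q : ℝ) ^ d)) (n : ℕ) :
    ((Dn hX n).card : ℝ) ≤ 2 * (1 + C) * Real.exp (1 + 4 * C) * (q : ℝ) ^ n := by
  classical
  have hK : 1 ≤ 2 * (1 + C) * Real.exp (1 + 4 * C) := by
    have h1 : 1 ≤ Real.exp (1 + 4 * C) := Real.one_le_exp (by positivity)
    nlinarith
  rcases Nat.eq_zero_or_pos n with rfl | hn
  · have h1 : Dn hX 0 = {∅} := by
      ext D
      rw [mem_Dn, mem_singleton]
      constructor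
      · intro h
        rw [eq_empty_iff_forall_notMem]
        intro P hP
        have h2 := deg_le_degS hP
        have h3 := hX.pos P
        omega
      · rintro rfl
        rfl
    rw [h1, card_singleton, pow_zero, mul_one, Nat.cast_one]
    exact hK
  · have h1 := rankin' hX hC0 hC (fun _ => False) one_pos one_le_two n hn 0 (fun _ => True)
      (fun D _ _ => by rw [Real.rpow_zero, one_pow])
    simp only [filter_true] at h1
    simpa using h1

/-- Two primes of the same degree `≥ N`. -/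
def EDistN (N : ℕ) (D : Finset X.Pr) : Prop :=
  ∃ P ∈ D, ∃ Q ∈ D, N ≤ X.deg P ∧ X.deg P = X.deg Q ∧ P ≠ Q

open Classical in
theorem dist_le (hX : X.Ok q) {C : ℝ} (hC0 : 0 ≤ C)
    (hC : ∀ d : ℕ, 1 ≤ d → |(d : ℝ) * npr X d - (q : ℝ) ^ d| ≤ C * √((q : ℝ) ^ d)) (n N : ℕ)
    (hN : 1 ≤ N) :
    (((Dn hX n).filter (EDistN N)).card : ℝ) ≤
      2 * (1 + C) * Real.exp (1 + 4 * C) * (1 + C) ^ 2 * (2 / N) * (q : ℝ) ^ n := by
  set K := 2 * (1 + C) * Real.exp (1 + 4 * C) with hK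
  have hK0 : 0 ≤ K := by positivity
  set Pd : ℕ → Finset X.Pr := fun d => (Ple hX n).filter fun P => X.deg P = d with hPd
  set Bd : Finset (Finset X.Pr) := (Dn hX n).filter (EDistN N) with hBd
  set T : Finset ℕ := (Icc N n).filter fun d => 2 * d ≤ n with hT
  have hsub : Bd ⊆ T.biUnion fun d => (Pd d ×ˢ Pd d).biUnion fun x =>
      (Dn hX (n - 2 * d)).image fun D' => insert x.1 (insert x.2 D') := by
    intro D hD
    rw [hBd, mem_filter, mem_Dn] at hD
    obtain ⟨hD, P, hP, Q, hQ, hN', hPQ, hne⟩ := hD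
    have h1 : X.deg P + X.degS (D.erase P) = X.degS D := add_sum_erase D X.deg hP
    have hQ' : Q ∈ D.erase P := mem_erase.2 ⟨hne.symm, hQ⟩
    have h2 : X.deg Q + X.degS ((D.erase P).erase Q) = X.degS (D.erase P) :=
      add_sum_erase _ X.deg hQ'
    rw [mem_biUnion]
    refine ⟨X.deg P, ?_, ?_⟩
    · rw [hT, mem_filter, mem_Icc]
      omega
    · rw [mem_biUnion]
      refine ⟨(P, Q), ?_, ?_⟩
      · rw [mem_product, hPd, mem_filter, mem_filter, mem_Ple, mem_Ple]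
        refine ⟨⟨?_, rfl⟩, ⟨?_, hPQ.symm⟩⟩
        · change X.deg P ≤ n
          omega
        · change X.deg Q ≤ n
          omega
      · rw [mem_image]
        refine ⟨(D.erase P).erase Q, mem_Dn.2 (by omega), ?_⟩
        change insert P (insert Q ((D.erase P).erase Q)) = D
        rw [insert_erase hQ', insert_erase hP]
  have h1 : Bd.card ≤ ∑ d ∈ T, (Pd d).card * (Pd d).card * (Dn hX (n - 2 * d)).card := by
    refine (card_le_card hsub).trans (card_biUnion_le.trans (sum_le_sum fun d _ => ?_))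
    rw [← card_product]
    calc ((Pd d ×ˢ Pd d).biUnion fun x =>
          (Dn hX (n - 2 * d)).image fun D' => insert x.1 (insert x.2 D')).card
        ≤ ∑ x ∈ Pd d ×ˢ Pd d,
          ((Dn hX (n - 2 * d)).image fun D' => insert x.1 (insert x.2 D')).card := card_biUnion_le
      _ ≤ ∑ _x ∈ Pd d ×ˢ Pd d, (Dn hX (n - 2 * d)).card := sum_le_sum fun x _ => card_image_le
      _ = (Pd d ×ˢ Pd d).card * (Dn hX (n - 2 * d)).card := by rw [sum_const, smul_eq_mul]
  have h2 : (Bd.card : ℝ) ≤ ∑ d ∈ T, (npr X d : ℝ) * npr X d * (Dn hX (n - 2 * d)).card := by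
    have h3 : (Bd.card : ℝ) ≤
        ((∑ d ∈ T, (Pd d).card * (Pd d).card * (Dn hX (n - 2 * d)).card : ℕ) : ℝ) := by
      exact_mod_cast h1
    refine h3.trans ?_
    push_cast
    refine (sum_congr rfl fun d hd => ?_).le
    rw [hT, mem_filter, mem_Icc] at hd
    have : (Pd d).card = npr X d := card_deg hX hd.1.2
    rw [this]
  refine h2.trans ?_
  have h4 : ∀ d ∈ T, (npr X d : ℝ) * npr X d * (Dn hX (n - 2 * d)).card ≤
      K * (1 + C) ^ 2 * (q : ℝ) ^ n * ((d : ℝ) ^ 2)⁻¹ := by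
    intro d hd
    rw [hT, mem_filter, mem_Icc] at hd
    have hd1 : 1 ≤ d := hN.trans hd.1.1
    have hd0 : (0 : ℝ) < d := by exact_mod_cast hd1
    have h5 := npr_le hX hC0 hC d hd1
    have h6 : (npr X d : ℝ) ≤ (1 + C) * (q : ℝ) ^ d / d := by
      rw [le_div_iff₀ hd0, mul_comm]
      exact h5
    have h7 := nDD_le hX hC0 hC (n - 2 * d)
    have hq := pow_pos hX.qpos d
    have h8 : (q : ℝ) ^ n = (q : ℝ) ^ d * (q : ℝ) ^ d * (q : ℝ) ^ (n - 2 * d) := by
      rw [← pow_add, ← pow_add]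
      congr 1
      omega
    calc (npr X d : ℝ) * npr X d * (Dn hX (n - 2 * d)).card
        ≤ ((1 + C) * (q : ℝ) ^ d / d) * ((1 + C) * (q : ℝ) ^ d / d) *
          (K * (q : ℝ) ^ (n - 2 * d)) := by
          refine mul_le_mul (mul_le_mul h6 h6 (Nat.cast_nonneg _) (by positivity)) h7
            (Nat.cast_nonneg _) (by positivity)
      _ = K * (1 + C) ^ 2 * (q : ℝ) ^ n * ((d : ℝ) ^ 2)⁻¹ := by
          rw [h8]
          field_simp
  refine (sum_le_sum h4).trans ?_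
  rw [← mul_sum]
  have h9 : ∑ d ∈ T, ((d : ℝ) ^ 2)⁻¹ ≤ 2 / N := by
    have h10 := sum_Ioo_inv_sq_le (α := ℝ) (N - 1) (n + 1)
    have h11 : ((N - 1 : ℕ) : ℝ) + 1 = N := by
      rw [Nat.cast_sub hN]
      push_cast
      ring
    rw [h11] at h10
    refine le_trans (sum_le_sum_of_subset_of_nonneg ?_ fun d _ _ => by positivity) h10
    intro d hd
    rw [hT, mem_filter, mem_Icc] at hd
    rw [mem_Ioo]
    omega
  have hq := pow_pos hX.qpos n
  calc K * (1 + C) ^ 2 * (q : ℝ) ^ n * ∑ d ∈ T, ((d : ℝ) ^ 2)⁻¹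
      ≤ K * (1 + C) ^ 2 * (q : ℝ) ^ n * (2 / N) := mul_le_mul_of_nonneg_left h9 (by positivity)
    _ = _ := by ring

end Pool.Agent.SmN.PSys
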