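import Pool.Agent.Lib.SmN.Cnt.Stmts

/-!
SMITH-U (SmN), counting half, block K: the lower bound for the number of the squarefree divisors
from the prime number theorem.

`Pnt X q` : the prime system `X` with `pos`, `fin` and the prime number theorem `pnt`;
`Pnt.ok : X.Pnt q → X.Ok q`.

With `a n = nDD n / q ^ n` and `s n = ∑_(j < n) a j` marking one prime of a divisor gives
`|n a n - s n| ≤ K ∑_(j < n) (3/4) ^ (n - j) a j` (`Lower_mark`), and this alone gives a lower bound
for `a n` (`seq_lower`).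
-/

set_option autoImplicit false

open Finset

namespace Pool.Agent.SmN.PSys

/-- A prime system with the prime number theorem. -/
structure Pnt (X : PSys) (q : ℕ) : Prop where
  two_le : 2 ≤ q
  pos : ∀ P, 1 ≤ X.deg P
  fin : ∀ d, Finite (X.Of d)
  pnt : ∃ C : ℝ, ∀ d : ℕ, 1 ≤ d → |(d : ℝ) * Nat.card (X.Of d) - (q : ℝ) ^ d| ≤ C * √((q : ℝ) ^ d)

/-! ### The analytic lemma -/

private theorem Lower_geom (N : ℕ) :
    ∑ e ∈ range N, ((e : ℝ) + 1) * (3 / 4) ^ e = 16 - (16 + 4 * N) * (3 / 4) ^ N := by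
  induction N with
  | zero => norm_num
  | succ N ih =>
    rw [sum_range_succ, ih, pow_succ]
    push_cast
    ring

private theorem Lower_geom_le (n : ℕ) :
    ∑ j ∈ range n, ((n : ℝ) - j + 1) * (3 / 4) ^ (n - j) ≤ 16 := by
  have h1 : ∑ j ∈ range n, ((n : ℝ) - j + 1) * (3 / 4 : ℝ) ^ (n - j) =
      ∑ i ∈ range n, (((i + 1 : ℕ) : ℝ) + 1) * (3 / 4 : ℝ) ^ (i + 1) := by
    rw [← sum_range_reflect]
    refine sum_congr rfl fun j hj => ?_
    have hj' := mem_range.1 hj
    have e1 : n - (n - 1 - j) = j + 1 := by omega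
    have e2 : ((n - 1 - j : ℕ) : ℝ) = n - (j + 1 : ℕ) := by
      rw [show n - 1 - j = n - (j + 1) by omega, Nat.cast_sub (by omega)]
    rw [e1, e2]
    ring
  have h2 := Lower_geom (n + 1)
  rw [sum_range_succ'] at h2
  rw [h1]
  have h3 : (0 : ℝ) ≤ (16 + 4 * ((n + 1 : ℕ) : ℝ)) * (3 / 4) ^ (n + 1) := by positivity
  have h4 : (((0 : ℕ) : ℝ) + 1) * (3 / 4 : ℝ) ^ 0 = 1 := by norm_num
  rw [h4] at h2
  linarith

/-- A sequence which is almost its own average is bounded from below. -/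
theorem seq_lower (a : ℕ → ℝ) (h0 : a 0 = 1) (hn : ∀ n, 0 ≤ a n) (K : ℝ) (hK : 0 ≤ K)
    (h : ∀ n : ℕ, 1 ≤ n → |(n : ℝ) * a n - ∑ j ∈ range n, a j| ≤
      K * ∑ j ∈ range n, (3 / 4 : ℝ) ^ (n - j) * a j) :
    ∃ c : ℝ, 0 < c ∧ ∃ n₀ : ℕ, ∀ n ≥ n₀, c ≤ a n := by
  set s : ℕ → ℝ := fun n => ∑ j ∈ range n, a j with hs
  have hs1 : ∀ n, s (n + 1) = s n + a n := fun n => sum_range_succ a n
  have hsm : ∀ i n, i ≤ n → s i ≤ s n := fun i n hin =>
    sum_le_sum_of_subset_of_nonneg (range_subset_range.2 hin) fun j _ _ => hn j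
  have hs0 : ∀ n, 1 ≤ n → 1 ≤ s n := by
    intro n hn1
    have h1 := hsm 1 n hn1
    have h2 : s 1 = 1 := by simp [hs, h0]
    linarith
  -- the weighted sum is at most `s n`
  have hw : ∀ n, ∑ j ∈ range n, (3 / 4 : ℝ) ^ (n - j) * a j ≤ s n := by
    intro n
    refine sum_le_sum fun j _ => ?_
    have h1 : (3 / 4 : ℝ) ^ (n - j) ≤ 1 := pow_le_one₀ (by norm_num) (by norm_num)
    calc (3 / 4 : ℝ) ^ (n - j) * a j ≤ 1 * a j := mul_le_mul_of_nonneg_right h1 (hn j)
      _ = a j := one_mul _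
  have hup : ∀ n : ℕ, 1 ≤ n → (n : ℝ) * a n ≤ (1 + K) * s n := by
    intro n hn1
    have h1 := (abs_le.1 (h n hn1)).2
    have h2 := mul_le_mul_of_nonneg_left (hw n) hK
    have h3 : (∑ j ∈ range n, a j) = s n := rfl
    rw [h3] at h1
    linarith
  have hj : ∀ n : ℕ, 1 ≤ n → ∀ j < n, (n : ℝ) * a j ≤ (1 + K) * ((n : ℝ) - j + 1) * s n := by
    intro n hn1 j hjn
    have hsn := hs0 n hn1
    rcases Nat.eq_zero_or_pos j with rfl | hj0
    · rw [h0, mul_one, Nat.cast_zero, sub_zero]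
      have e1 : (0 : ℝ) ≤ n := Nat.cast_nonneg _
      have e2 : (n : ℝ) ≤ (1 + K) * ((n : ℝ) + 1) := by nlinarith
      have e3 : (1 + K) * ((n : ℝ) + 1) * 1 ≤ (1 + K) * ((n : ℝ) + 1) * s n :=
        mul_le_mul_of_nonneg_left hsn (by positivity)
      linarith
    · have e1 := hup j hj0
      have e2 : (n : ℝ) ≤ j * ((n : ℝ) - j + 1) := by
        have f1 : (1 : ℝ) ≤ j := by exact_mod_cast hj0
        have f2 : (0 : ℝ) ≤ (n : ℝ) - j := by
          have : (j : ℝ) ≤ n := by exact_mod_cast hjn.le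
          linarith
        nlinarith
      have e3 : (0 : ℝ) ≤ (n : ℝ) - j + 1 := by
        have : (j : ℝ) ≤ n := by exact_mod_cast hjn.le
        linarith
      calc (n : ℝ) * a j ≤ (j * ((n : ℝ) - j + 1)) * a j :=
            mul_le_mul_of_nonneg_right e2 (hn j)
        _ = ((n : ℝ) - j + 1) * (j * a j) := by ring
        _ ≤ ((n : ℝ) - j + 1) * ((1 + K) * s j) := mul_le_mul_of_nonneg_left e1 e3
        _ ≤ ((n : ℝ) - j + 1) * ((1 + K) * s n) :=
            mul_le_mul_of_nonneg_left (mul_le_mul_of_nonneg_left (hsm j n hjn.le) (by positivity))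
              e3
        _ = _ := by ring
  have hw2 : ∀ n : ℕ, 1 ≤ n → (n : ℝ) * ∑ j ∈ range n, (3 / 4 : ℝ) ^ (n - j) * a j ≤
      16 * (1 + K) * s n := by
    intro n hn1
    have hsn := hs0 n hn1
    calc (n : ℝ) * ∑ j ∈ range n, (3 / 4 : ℝ) ^ (n - j) * a j
        = ∑ j ∈ range n, (3 / 4 : ℝ) ^ (n - j) * (n * a j) := by
          rw [mul_sum]
          exact sum_congr rfl fun j _ => by ring
      _ ≤ ∑ j ∈ range n, (3 / 4 : ℝ) ^ (n - j) * ((1 + K) * ((n : ℝ) - j + 1) * s n) :=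
          sum_le_sum fun j hj' => mul_le_mul_of_nonneg_left (hj n hn1 j (mem_range.1 hj'))
            (by positivity)
      _ = ((1 + K) * s n) * ∑ j ∈ range n, ((n : ℝ) - j + 1) * (3 / 4) ^ (n - j) := by
          rw [mul_sum]
          exact sum_congr rfl fun j _ => by ring
      _ ≤ ((1 + K) * s n) * 16 :=
          mul_le_mul_of_nonneg_left (Lower_geom_le n) (by positivity)
      _ = _ := by ring
  set K' : ℝ := 16 * K * (1 + K) with hK'
  have hK'0 : 0 ≤ K' := by positivity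
  have hlow : ∀ n : ℕ, 1 ≤ n → s n / n * (1 - K' / n) ≤ a n := by
    intro n hn1
    have hn0 : (0 : ℝ) < n := by exact_mod_cast hn1
    have h1 := (abs_le.1 (h n hn1)).1
    have h3 : (∑ j ∈ range n, a j) = s n := rfl
    rw [h3] at h1
    have h2 : K * ∑ j ∈ range n, (3 / 4 : ℝ) ^ (n - j) * a j ≤ K' * s n / n := by
      rw [le_div_iff₀ hn0]
      have := mul_le_mul_of_nonneg_left (hw2 n hn1) hK
      calc K * (∑ j ∈ range n, (3 / 4 : ℝ) ^ (n - j) * a j) * n
          = K * (n * ∑ j ∈ range n, (3 / 4 : ℝ) ^ (n - j) * a j) := by ring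
        _ ≤ K * (16 * (1 + K) * s n) := this
        _ = K' * s n := by rw [hK']; ring
    have h4 : s n - K' * s n / n ≤ n * a n := by linarith
    have h5 : s n / n * (1 - K' / n) = (s n - K' * s n / n) / n := by
      field_simp
    rw [h5, div_le_iff₀ hn0]
    linarith
  set t : ℕ → ℝ := fun n => s n / n with ht
  have ht0 : ∀ n, 1 ≤ n → 0 < t n := by
    intro n hn1
    have h1 := hs0 n hn1
    have hn0 : (0 : ℝ) < n := by exact_mod_cast hn1
    exact div_pos (by linarith) hn0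
  have hstep : ∀ n : ℕ, 1 ≤ n → t n * (1 - K' / (n * (n + 1))) ≤ t (n + 1) := by
    intro n hn1
    have hn0 : (0 : ℝ) < n := by exact_mod_cast hn1
    have h1 := hlow n hn1
    have h2 : t (n + 1) = (s n + a n) / (n + 1) := by
      simp only [ht]
      rw [hs1]
      push_cast
      rfl
    rw [h2, le_div_iff₀ (by positivity)]
    have h3 : t n * (1 - K' / (n * (n + 1))) * (n + 1) = s n + s n / n * (1 - K' / n) := by
      simp only [ht]
      field_simp
      ring
    rw [h3]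
    linarith
  obtain ⟨n1, hn1⟩ := exists_nat_ge (2 * K' + 1)
  have hn1' : (1 : ℝ) ≤ n1 := by linarith
  have hn1'' : 1 ≤ n1 := by exact_mod_cast hn1'
  have hind : ∀ n : ℕ, n1 ≤ n → t n1 * (1 - K' * (1 / n1 - 1 / n)) ≤ t n := by
    intro n hn
    induction n, hn using Nat.le_induction with
    | base => simp
    | succ n hn ih =>
      have hn0 : (0 : ℝ) < n := by
        have : (n1 : ℝ) ≤ n := by exact_mod_cast hn
        linarith
      have h1 := hstep n (by omega)
      have hx : 0 ≤ K' * (1 / n1 - 1 / n) := by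
        refine mul_nonneg hK'0 ?_
        have : (1 : ℝ) / n ≤ 1 / n1 :=
          one_div_le_one_div_of_le (by linarith) (by exact_mod_cast hn)
        linarith
      have hy : 0 ≤ K' / (n * (n + 1)) := by positivity
      have hy1 : K' / (n * (n + 1)) ≤ 1 := by
        rw [div_le_one (by positivity)]
        have : (n1 : ℝ) ≤ n := by exact_mod_cast hn
        nlinarith
      have e1 : (1 : ℝ) / n - 1 / (n + 1) = 1 / (n * (n + 1)) := by
        field_simp
        ring
      calc t n1 * (1 - K' * (1 / n1 - 1 / ((n + 1 : ℕ) : ℝ)))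
          = t n1 * (1 - K' * (1 / n1 - 1 / n) - K' / (n * (n + 1))) := by
            push_cast
            have e2 : (1 : ℝ) / (n + 1) = 1 / n - 1 / (n * (n + 1)) := by linarith
            rw [e2]
            ring
        _ ≤ t n1 * ((1 - K' * (1 / n1 - 1 / n)) * (1 - K' / (n * (n + 1)))) := by
            refine mul_le_mul_of_nonneg_left ?_ (ht0 n1 hn1'').le
            nlinarith [mul_nonneg hx hy]
        _ = t n1 * (1 - K' * (1 / n1 - 1 / n)) * (1 - K' / (n * (n + 1))) := by ring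
        _ ≤ t n * (1 - K' / (n * (n + 1))) := mul_le_mul_of_nonneg_right ih (by linarith)
        _ ≤ t (n + 1) := h1
  refine ⟨t n1 / 4, by have := ht0 n1 hn1''; positivity, n1, fun n hn => ?_⟩
  have hn0 : (0 : ℝ) < n := by
    have : (n1 : ℝ) ≤ n := by exact_mod_cast hn
    linarith
  have hnn : (n1 : ℝ) ≤ n := by exact_mod_cast hn
  have h1 := hind n hn
  have h2 : K' * (1 / n1 - 1 / n) ≤ 1 / 2 := by
    have f1 : K' * (1 / n1 - 1 / n) ≤ K' * (1 / n1) := by
      refine mul_le_mul_of_nonneg_left ?_ hK'0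
      have : (0 : ℝ) ≤ 1 / n := by positivity
      linarith
    have f2 : K' * (1 / n1) ≤ 1 / 2 := by
      rw [mul_one_div, div_le_iff₀ (by linarith)]
      linarith
    linarith
  have h3 : K' / n ≤ 1 / 2 := by
    rw [div_le_iff₀ hn0]
    linarith
  have h4 := hlow n (by omega)
  have h5 : t n1 / 2 ≤ t n := by
    refine le_trans ?_ h1
    have := ht0 n1 hn1''
    nlinarith
  have h6 : t n / 2 ≤ t n * (1 - K' / n) := by
    have := ht0 n (by omega)
    nlinarith
  have h7 : t n * (1 - K' / n) ≤ a n := h4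
  linarith

/-! ### Marking a prime -/

section mark

variable {X : PSys}

private theorem Lower_fin (hf : ∀ d, Finite (X.Of d)) (n : ℕ) :
    {P : X.Pr | X.deg P ≤ n}.Finite := by
  have h1 : {P : X.Pr | X.deg P ≤ n} = ⋃ d ∈ Set.Iic n, {P : X.Pr | X.deg P = d} := by
    ext P
    simp
  rw [h1]
  exact (Set.finite_Iic n).biUnion fun d _ => Set.finite_coe_iff.1 (hf d)

/-- the primes of degree `≤ n` -/
private noncomputable def Pl (hf : ∀ d, Finite (X.Of d)) (n : ℕ) : Finset X.Pr :=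
  (Lower_fin hf n).toFinset

private theorem mem_Pl {hf : ∀ d, Finite (X.Of d)} {n : ℕ} {P : X.Pr} :
    P ∈ Pl hf n ↔ X.deg P ≤ n := by
  rw [Pl, Set.Finite.mem_toFinset]
  rfl

private theorem Lower_deg_le {D : Finset X.Pr} {P : X.Pr} (hP : P ∈ D) : X.deg P ≤ X.degS D :=
  single_le_sum (f := X.deg) (fun _ _ => Nat.zero_le _) hP

open Classical in
/-- the squarefree divisors of degree `n` -/
private noncomputable def Dl (hf : ∀ d, Finite (X.Of d)) (n : ℕ) : Finset (Finset X.Pr) :=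
  (Pl hf n).powerset.filter fun D => X.degS D = n

private theorem mem_Dl {hf : ∀ d, Finite (X.Of d)} {n : ℕ} {D : Finset X.Pr} :
    D ∈ Dl hf n ↔ X.degS D = n := by
  classical
  rw [Dl, mem_filter, mem_powerset]
  exact ⟨fun h => h.2, fun h => ⟨fun P hP => mem_Pl.2 ((Lower_deg_le hP).trans h.le), h⟩⟩

private theorem nDD_eq' (hf : ∀ d, Finite (X.Of d)) (n : ℕ) : X.nDD n = (Dl hf n).card :=
  Nat.subtype_card _ fun _ => mem_Dl

/-- There are finitely many squarefree divisors of degree `n`. -/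
theorem finite_degS (hf : ∀ d, Finite (X.Of d)) (n : ℕ) :
    Finite {D : Finset X.Pr // X.degS D = n} :=
  Finite.of_injective (β := {D : Finset X.Pr // D ∈ Dl hf n})
    (fun D => ⟨D.1, mem_Dl.2 D.2⟩) fun D D' h => by
      apply Subtype.ext
      simpa using h

open Classical in
private theorem Lower_card_deg (hf : ∀ d, Finite (X.Of d)) {n d : ℕ} (hd : d ≤ n) :
    ((Pl hf n).filter fun P => X.deg P = d).card = Nat.card (X.Of d) := by
  refine (Nat.subtype_card _ fun P => ?_).symm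
  rw [mem_filter, mem_Pl]
  exact ⟨fun h => h.2, fun h => ⟨h.le.trans hd, h⟩⟩

open Classical in
/-- the divisors without `P` -/
private noncomputable def Dw (hf : ∀ d, Finite (X.Of d)) (P : X.Pr) (n : ℕ) :
    Finset (Finset X.Pr) := (Dl hf n).filter fun D => P ∉ D

open Classical in
/-- the identity -/
private theorem Lower_mark (hf : ∀ d, Finite (X.Of d)) (n : ℕ) :
    n * (Dl hf n).card = ∑ P ∈ Pl hf n, X.deg P * (Dw hf P (n - X.deg P)).card := by
  have h1 : n * (Dl hf n).card = ∑ x ∈ (Dl hf n).sigma (fun D => D), X.deg x.2 := by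
    rw [sum_sigma, mul_comm, ← smul_eq_mul, ← sum_const]
    refine sum_congr rfl fun D hD => ?_
    exact (mem_Dl.1 hD).symm
  have h2 : ∑ P ∈ Pl hf n, X.deg P * (Dw hf P (n - X.deg P)).card =
      ∑ y ∈ (Pl hf n).sigma (fun P => Dw hf P (n - X.deg P)), X.deg y.1 := by
    rw [sum_sigma]
    refine sum_congr rfl fun P _ => ?_
    show _ = ∑ _s ∈ Dw hf P (n - X.deg P), X.deg P
    rw [sum_const, smul_eq_mul, mul_comm]
  rw [h1, h2]
  refine sum_bij' (fun x _ => ⟨x.2, x.1.erase x.2⟩) (fun y _ => ⟨insert y.1 y.2, y.1⟩)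
    ?_ ?_ ?_ ?_ ?_
  · rintro ⟨D, P⟩ hx
    rw [mem_sigma] at hx ⊢
    have hd : X.degS D = n := mem_Dl.1 hx.1
    have hP : P ∈ D := hx.2
    refine ⟨mem_Pl.2 (hd ▸ Lower_deg_le hP), ?_⟩
    rw [Dw, mem_filter, mem_Dl]
    refine ⟨?_, notMem_erase _ _⟩
    have h5 : X.deg P + X.degS (D.erase P) = X.degS D := add_sum_erase D X.deg hP
    show X.degS (D.erase P) = n - X.deg P
    omega
  · rintro ⟨P, D⟩ hy
    rw [mem_sigma] at hy ⊢
    have hP : X.deg P ≤ n := mem_Pl.1 hy.1
    have hD := hy.2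
    rw [Dw, mem_filter, mem_Dl] at hD
    refine ⟨mem_Dl.2 ?_, mem_insert_self _ _⟩
    have h5 : X.degS (insert P D) = X.deg P + X.degS D := sum_insert hD.2
    have h6 : X.degS D = n - X.deg P := hD.1
    show X.degS (insert P D) = n
    omega
  · rintro ⟨D, P⟩ hx
    rw [mem_sigma] at hx
    have hP : P ∈ D := hx.2
    simp only [insert_erase hP]
  · rintro ⟨P, D⟩ hy
    rw [mem_sigma] at hy
    have hD := hy.2
    rw [Dw, mem_filter] at hD
    have hD2 : P ∉ D := hD.2
    simp only [erase_insert hD2]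
  · rintro ⟨D, P⟩ _
    rfl

open Classical in
private theorem Lower_Dw_le (hf : ∀ d, Finite (X.Of d)) (P : X.Pr) (n : ℕ) :
    (Dw hf P n).card ≤ (Dl hf n).card := card_filter_le _ _

open Classical in
private theorem Lower_Dw_ge (hf : ∀ d, Finite (X.Of d)) (P : X.Pr) (n : ℕ) :
    (Dl hf n).card ≤ (Dw hf P n).card +
      if X.deg P ≤ n then (Dl hf (n - X.deg P)).card else 0 := by
  have h1 : (Dl hf n).card = (Dw hf P n).card + ((Dl hf n).filter fun D => P ∈ D).card := by
    rw [Dw, add_comm]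
    exact (card_filter_add_card_filter_not (s := Dl hf n) fun D => P ∈ D).symm
  have h2 : ((Dl hf n).filter fun D => P ∈ D).card ≤
      if X.deg P ≤ n then (Dl hf (n - X.deg P)).card else 0 := by
    split_ifs with h
    · refine card_le_card_of_injOn (fun D => D.erase P) ?_ ?_
      · intro D hD
        rw [mem_coe, mem_filter, mem_Dl] at hD
        rw [mem_coe, mem_Dl]
        have h5 : X.deg P + X.degS (D.erase P) = X.degS D := add_sum_erase D X.deg hD.2
        show X.degS (D.erase P) = n - X.deg P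
        omega
      · intro D hD D' hD' he
        rw [mem_coe, mem_filter] at hD hD'
        simp only at he
        rw [← insert_erase hD.2, ← insert_erase hD'.2, he]
    · rw [Nat.le_zero, card_eq_zero, filter_eq_empty_iff]
      intro D hD hP
      rw [mem_Dl] at hD
      have := Lower_deg_le hP
      omega
  omega

end mark

/-! ### The theorem -/

section main

variable {X : PSys} {q : ℕ}

private theorem Lower_sqrt {q : ℕ} (hq : 2 ≤ q) (d : ℕ) :
    √((q : ℝ) ^ d) ≤ (3 / 4) ^ d * (q : ℝ) ^ d := by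
  have hq' : (2 : ℝ) ≤ q := by exact_mod_cast hq
  rw [Real.sqrt_le_left (by positivity), mul_pow, ← pow_mul, ← pow_mul, mul_comm d 2, pow_mul,
    pow_mul, ← mul_pow]
  refine pow_le_pow_left₀ (by positivity) ?_ d
  nlinarith

private theorem Lower_inv {q : ℕ} (hq : 2 ≤ q) (d : ℕ) :
    1 ≤ (3 / 4 : ℝ) ^ (2 * d) * (q : ℝ) ^ d := by
  have hq' : (2 : ℝ) ≤ q := by exact_mod_cast hq
  rw [pow_mul, ← mul_pow]
  refine one_le_pow₀ ?_
  norm_num
  linarith

open Classical in
/-- The marking inequality for `a n = nDD n / q ^ n`. -/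
private theorem Lower_main (hX : X.Pnt q) {C : ℝ} (hC0 : 0 ≤ C)
    (hC : ∀ d : ℕ, 1 ≤ d →
      |(d : ℝ) * Nat.card (X.Of d) - (q : ℝ) ^ d| ≤ C * √((q : ℝ) ^ d)) (n : ℕ) :
    |(n : ℝ) * (X.nDD n / (q : ℝ) ^ n) - ∑ j ∈ range n, (X.nDD j : ℝ) / (q : ℝ) ^ j| ≤
      (1 + 2 * C) * ∑ j ∈ range n, (3 / 4 : ℝ) ^ (n - j) * ((X.nDD j : ℝ) / (q : ℝ) ^ j) := by
  have hf := hX.fin
  have hq' : (2 : ℝ) ≤ q := by exact_mod_cast hX.two_le
  have hq0 : (0 : ℝ) < q := by linarith
  set A : ℕ → ℝ := fun m => X.nDD m with hA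
  have hA0 : ∀ m, 0 ≤ A m := fun m => Nat.cast_nonneg _
  have hAc : ∀ m, ((Dl hf m).card : ℝ) = A m := fun m => by rw [hA]; simp only; rw [nDD_eq' hf]
  set π : ℕ → ℝ := fun d => (d : ℝ) * Nat.card (X.Of d) with hπ
  -- grouped by degree
  have hgrp : (n : ℝ) * A n = ∑ d ∈ Icc 1 n, ∑ P ∈ Pl hf n with X.deg P = d,
      (d : ℝ) * (Dw hf P (n - d)).card := by
    have h1 : ((n * (Dl hf n).card : ℕ) : ℝ) = _ := congrArg Nat.cast (Lower_mark hf n)
    have h2 : ∀ P ∈ Pl hf n, X.deg P ∈ Icc 1 n := fun P hP =>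
      mem_Icc.2 ⟨hX.pos P, mem_Pl.1 hP⟩
    push_cast at h1
    rw [hAc] at h1
    rw [h1, ← sum_fiberwise_of_maps_to h2]
    refine sum_congr rfl fun d _ => sum_congr rfl fun P hP => ?_
    rw [(mem_filter.1 hP).2]
  have hupd : ∀ d ∈ Icc 1 n, ∑ P ∈ Pl hf n with X.deg P = d,
      (d : ℝ) * (Dw hf P (n - d)).card ≤ π d * A (n - d) := by
    intro d hd
    calc ∑ P ∈ Pl hf n with X.deg P = d, (d : ℝ) * (Dw hf P (n - d)).card
        ≤ ∑ P ∈ Pl hf n with X.deg P = d, (d : ℝ) * A (n - d) := by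
          refine sum_le_sum fun P _ => mul_le_mul_of_nonneg_left ?_ (Nat.cast_nonneg _)
          rw [← hAc]
          exact_mod_cast Lower_Dw_le hf P (n - d)
      _ = π d * A (n - d) := by
          rw [sum_const, Lower_card_deg hf (mem_Icc.1 hd).2, nsmul_eq_mul]
          simp only [hπ]
          ring
  have hlod : ∀ d ∈ Icc 1 n, π d * A (n - d) - π d * (if 2 * d ≤ n then A (n - 2 * d) else 0) ≤
      ∑ P ∈ Pl hf n with X.deg P = d, (d : ℝ) * (Dw hf P (n - d)).card := by
    intro d hd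
    calc π d * A (n - d) - π d * (if 2 * d ≤ n then A (n - 2 * d) else 0)
        = ∑ P ∈ Pl hf n with X.deg P = d,
            (d : ℝ) * (A (n - d) - (if 2 * d ≤ n then A (n - 2 * d) else 0)) := by
          rw [sum_const, Lower_card_deg hf (mem_Icc.1 hd).2, nsmul_eq_mul]
          simp only [hπ]
          ring
      _ ≤ _ := by
          refine sum_le_sum fun P hP => mul_le_mul_of_nonneg_left ?_ (Nat.cast_nonneg _)
          have h1 := Lower_Dw_ge hf P (n - d)
          rw [(mem_filter.1 hP).2] at h1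
          have h2 : ((Dl hf (n - d)).card : ℝ) ≤ ((Dw hf P (n - d)).card : ℝ) +
              ((if d ≤ n - d then (Dl hf (n - d - d)).card else 0 : ℕ) : ℝ) := by
            exact_mod_cast h1
          rw [hAc] at h2
          have h3 : ((if d ≤ n - d then (Dl hf (n - d - d)).card else 0 : ℕ) : ℝ) =
              if 2 * d ≤ n then A (n - 2 * d) else 0 := by
            by_cases h4 : 2 * d ≤ n
            · rw [if_pos h4, if_pos (by omega), hAc, show n - d - d = n - 2 * d by omega]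
            · rw [if_neg h4, if_neg (by have := (mem_Icc.1 hd).1; omega)]
              simp
          rw [h3] at h2
          linarith
  -- the bounds for `π d`
  have hπu : ∀ d ∈ Icc 1 n, π d ≤ (1 + C * (3 / 4) ^ d) * (q : ℝ) ^ d := by
    intro d hd
    have h1 := (abs_le.1 (hC d (mem_Icc.1 hd).1)).2
    have h2 := mul_le_mul_of_nonneg_left (Lower_sqrt hX.two_le d) hC0
    simp only [hπ]
    linarith
  have hπl : ∀ d ∈ Icc 1 n, (1 - C * (3 / 4) ^ d) * (q : ℝ) ^ d ≤ π d := by
    intro d hd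
    have h1 := (abs_le.1 (hC d (mem_Icc.1 hd).1)).1
    have h2 := mul_le_mul_of_nonneg_left (Lower_sqrt hX.two_le d) hC0
    simp only [hπ]
    linarith
  have hrew : ∀ F : ℕ → ℝ, ∑ d ∈ Icc 1 n, F d = ∑ j ∈ range n, F (n - j) := by
    intro F
    refine sum_bij' (fun d _ => n - d) (fun j _ => n - j) ?_ ?_ ?_ ?_ ?_
    · intro d hd
      have := mem_Icc.1 hd
      exact mem_range.2 (by omega)
    · intro j hj
      have := mem_range.1 hj
      exact mem_Icc.2 (by omega)
    · intro d hd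
      have := mem_Icc.1 hd
      omega
    · intro j hj
      have := mem_range.1 hj
      omega
    · intro d hd
      have := mem_Icc.1 hd
      rw [show n - (n - d) = d by omega]
  have hqn : (0 : ℝ) < (q : ℝ) ^ n := by positivity
  have hqj : ∀ j ≤ n, (q : ℝ) ^ n = (q : ℝ) ^ (n - j) * (q : ℝ) ^ j := by
    intro j hj
    rw [← pow_add]
    congr 1
    omega
  set T : ℝ := ∑ j ∈ range n, (3 / 4 : ℝ) ^ (n - j) * (A j / (q : ℝ) ^ j) with hT
  set s : ℝ := ∑ j ∈ range n, A j / (q : ℝ) ^ j with hs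
  -- upper bound
  have hU : (n : ℝ) * A n ≤ (q : ℝ) ^ n * (s + C * T) := by
    rw [hgrp]
    calc ∑ d ∈ Icc 1 n, ∑ P ∈ Pl hf n with X.deg P = d, (d : ℝ) * (Dw hf P (n - d)).card
        ≤ ∑ d ∈ Icc 1 n, (1 + C * (3 / 4) ^ d) * (q : ℝ) ^ d * A (n - d) :=
          sum_le_sum fun d hd => (hupd d hd).trans
            (mul_le_mul_of_nonneg_right (hπu d hd) (hA0 _))
      _ = ∑ j ∈ range n, (1 + C * (3 / 4) ^ (n - j)) * (q : ℝ) ^ (n - j) * A (n - (n - j)) :=
          hrew fun d => (1 + C * (3 / 4) ^ d) * (q : ℝ) ^ d * A (n - d)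
      _ = (q : ℝ) ^ n * (s + C * T) := by
          rw [hs, hT, mul_sum, ← sum_add_distrib, mul_sum]
          refine sum_congr rfl fun j hj => ?_
          have hj' := mem_range.1 hj
          rw [show n - (n - j) = j by omega, hqj j hj'.le]
          have : (q : ℝ) ^ j ≠ 0 := by positivity
          field_simp
  -- the double terms
  have hW : ∑ d ∈ Icc 1 n, π d * (if 2 * d ≤ n then A (n - 2 * d) else 0) ≤
      (q : ℝ) ^ n * ((1 + C) * T) := by
    have h1 : ∀ d ∈ Icc 1 n, π d * (if 2 * d ≤ n then A (n - 2 * d) else 0) ≤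
        if 2 * d ≤ n then (1 + C) * (q : ℝ) ^ n *
          ((3 / 4 : ℝ) ^ (2 * d) * (A (n - 2 * d) / (q : ℝ) ^ (n - 2 * d))) else 0 := by
      intro d hd
      split_ifs with h2
      · have h3 : π d ≤ (1 + C) * (q : ℝ) ^ d := by
          refine (hπu d hd).trans (mul_le_mul_of_nonneg_right ?_ (by positivity))
          have : C * (3 / 4 : ℝ) ^ d ≤ C * 1 :=
            mul_le_mul_of_nonneg_left (pow_le_one₀ (by norm_num) (by norm_num)) hC0
          linarith
        have h4 : (q : ℝ) ^ n = (q : ℝ) ^ d * (q : ℝ) ^ d * (q : ℝ) ^ (n - 2 * d) := by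
          rw [← pow_add, ← pow_add]
          congr 1
          omega
        have h5 := Lower_inv hX.two_le d
        have h6 : (q : ℝ) ^ (n - 2 * d) ≠ 0 := by positivity
        calc π d * A (n - 2 * d) ≤ (1 + C) * (q : ℝ) ^ d * A (n - 2 * d) :=
              mul_le_mul_of_nonneg_right h3 (hA0 _)
          _ = (1 + C) * (q : ℝ) ^ d * A (n - 2 * d) * 1 := (mul_one _).symm
          _ ≤ (1 + C) * (q : ℝ) ^ d * A (n - 2 * d) * ((3 / 4 : ℝ) ^ (2 * d) * (q : ℝ) ^ d) :=
              mul_le_mul_of_nonneg_left h5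
                (mul_nonneg (mul_nonneg (by linarith) (by positivity)) (hA0 _))
          _ = _ := by
              rw [h4]
              field_simp
      · rw [mul_zero]
    refine (sum_le_sum h1).trans ?_
    rw [← sum_filter, ← mul_sum]
    have h2 : ∑ d ∈ Icc 1 n with 2 * d ≤ n,
        (3 / 4 : ℝ) ^ (2 * d) * (A (n - 2 * d) / (q : ℝ) ^ (n - 2 * d)) ≤ T := by
      have h3 : ∑ d ∈ Icc 1 n with 2 * d ≤ n,
          (3 / 4 : ℝ) ^ (2 * d) * (A (n - 2 * d) / (q : ℝ) ^ (n - 2 * d)) =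
          ∑ j ∈ ((Icc 1 n).filter fun d => 2 * d ≤ n).image fun d => n - 2 * d,
            (3 / 4 : ℝ) ^ (n - j) * (A j / (q : ℝ) ^ j) := by
        rw [sum_image]
        · refine sum_congr rfl fun d hd => ?_
          have hd' := mem_filter.1 hd
          rw [show n - (n - 2 * d) = 2 * d by omega]
        · intro d hd d' hd' he
          rw [mem_coe, mem_filter, mem_Icc] at hd hd'
          simp only at he
          omega
      rw [h3, hT]
      refine sum_le_sum_of_subset_of_nonneg ?_ fun j _ _ => ?_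
      · intro j hj
        rw [mem_image] at hj
        obtain ⟨d, hd, rfl⟩ := hj
        rw [mem_filter, mem_Icc] at hd
        exact mem_range.2 (by omega)
      · exact mul_nonneg (by positivity) (div_nonneg (hA0 _) (by positivity))
    calc (1 + C) * (q : ℝ) ^ n * _ ≤ (1 + C) * (q : ℝ) ^ n * T :=
          mul_le_mul_of_nonneg_left h2 (by positivity)
      _ = _ := by ring
  -- lower bound
  have hL : (q : ℝ) ^ n * (s - C * T) - (q : ℝ) ^ n * ((1 + C) * T) ≤ (n : ℝ) * A n := by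
    rw [hgrp]
    have h1 : ∑ d ∈ Icc 1 n, (π d * A (n - d) -
        π d * (if 2 * d ≤ n then A (n - 2 * d) else 0)) ≤ _ := sum_le_sum hlod
    rw [sum_sub_distrib] at h1
    have h2 : (q : ℝ) ^ n * (s - C * T) ≤ ∑ d ∈ Icc 1 n, π d * A (n - d) := by
      calc (q : ℝ) ^ n * (s - C * T)
          = ∑ j ∈ range n, (1 - C * (3 / 4) ^ (n - j)) * (q : ℝ) ^ (n - j) *
              A (n - (n - j)) := by
            rw [hs, hT, mul_sum, ← sum_sub_distrib, mul_sum]
            refine sum_congr rfl fun j hj => ?_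
            have hj' := mem_range.1 hj
            rw [show n - (n - j) = j by omega, hqj j hj'.le]
            have : (q : ℝ) ^ j ≠ 0 := by positivity
            field_simp
        _ = ∑ d ∈ Icc 1 n, (1 - C * (3 / 4) ^ d) * (q : ℝ) ^ d * A (n - d) :=
            (hrew fun d => (1 - C * (3 / 4) ^ d) * (q : ℝ) ^ d * A (n - d)).symm
        _ ≤ _ := sum_le_sum fun d hd => mul_le_mul_of_nonneg_right (hπl d hd) (hA0 _)
    linarith
  have hT0 : 0 ≤ T := sum_nonneg fun j _ =>
    mul_nonneg (by positivity) (div_nonneg (hA0 _) (by positivity))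
  have hfin : (n : ℝ) * (A n / (q : ℝ) ^ n) = (n : ℝ) * A n / (q : ℝ) ^ n := by ring
  rw [hfin, abs_le]
  constructor
  · rw [neg_le_sub_iff_le_add, ← sub_le_iff_le_add]
    rw [le_div_iff₀ hqn]
    calc (s - (1 + 2 * C) * T) * (q : ℝ) ^ n
        = (q : ℝ) ^ n * (s - C * T) - (q : ℝ) ^ n * ((1 + C) * T) := by ring
      _ ≤ _ := hL
  · rw [sub_le_iff_le_add, div_le_iff₀ hqn]
    calc (n : ℝ) * A n ≤ (q : ℝ) ^ n * (s + C * T) := hU
      _ ≤ (q : ℝ) ^ n * ((1 + 2 * C) * T + s) := by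
          refine mul_le_mul_of_nonneg_left ?_ hqn.le
          nlinarith [mul_nonneg hC0 hT0]
      _ = _ := by ring

/-- **The lower bound for the number of the squarefree divisors.** -/
theorem Pnt.ok (hX : X.Pnt q) : X.Ok q := by
  refine ⟨hX.two_le, hX.pos, hX.fin, hX.pnt, ?_⟩
  obtain ⟨C', hC'⟩ := hX.pnt
  have hq' : (2 : ℝ) ≤ q := by exact_mod_cast hX.two_le
  have hC : ∀ d : ℕ, 1 ≤ d →
      |(d : ℝ) * Nat.card (X.Of d) - (q : ℝ) ^ d| ≤ |C'| * √((q : ℝ) ^ d) := fun d hd =>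
    (hC' d hd).trans (mul_le_mul_of_nonneg_right (le_abs_self _) (Real.sqrt_nonneg _))
  obtain ⟨c, hc, n₀, hn₀⟩ := seq_lower (fun n => (X.nDD n : ℝ) / (q : ℝ) ^ n) (by
      have h1 : X.nDD 0 = 1 := by
        rw [nDD, Nat.card_eq_one_iff_unique]
        refine ⟨⟨fun D D' => ?_⟩, ⟨⟨∅, rfl⟩⟩⟩
        have h2 : ∀ D : {D : Finset X.Pr // X.degS D = 0}, D.1 = ∅ := by
          intro D
          rw [eq_empty_iff_forall_notMem]
          intro P hP
          have h3 := Lower_deg_le hP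
          have h4 := hX.pos P
          have h5 := D.2
          omega
        exact Subtype.ext ((h2 D).trans (h2 D').symm)
      simp [h1]) (fun n => by positivity) (1 + 2 * |C'|) (by positivity)
    (fun n _ => Lower_main hX (abs_nonneg C') hC n)
  refine ⟨c, hc, n₀, fun n hn => ?_⟩
  have h1 : c ≤ (X.nDD n : ℝ) / (q : ℝ) ^ n := hn₀ n hn
  rwa [le_div_iff₀ (by positivity)] at h1

end main

end Pool.Agent.SmN.PSys
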